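import Pool.Agent.H84.NT.Targets

/-!
# Covariance with one block
-/

open MeasureTheory ProbabilityTheory
open scoped ENNReal

namespace Pool.Agent.H38.NT

open Pool.Agent.H99.NS Pool.Agent.H22.LPP Pool.Agent.H95.INS Pool.Agent.H84.NT

theorem meas_dep (hF : T_FIM) {S : Finset Site} {f : Env → ℝ} (hf : DepOn (S : Set Site) f) :
    Measurable f := by
  intro U _
  refine hF (S : Set Site) (fun ω => f ω ∈ U) S.finite_toSet ?_
  intro ω ω' h
  simp only [hf ω ω' h]

theorem int_dep (hF : T_FIM) (q : ℝ) {S : Finset Site} {f : Env → ℝ}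
    (hf : DepOn (S : Set Site) f) {C : ℝ} (hC : ∀ ω, |f ω| ≤ C) : Integrable f (PE q) :=
  Integrable.of_bound (meas_dep hF hf).aestronglyMeasurable C
    (Filter.Eventually.of_forall fun ω => by rw [Real.norm_eq_abs]; exact hC ω)

theorem dep_ind {A : Set Site} {H : Set Env} (hH : DepOn A (fun ω => ω ∈ H)) :
    DepOn A (H.indicator (fun _ => (1 : ℝ))) := by
  intro ω ω' h
  have := hH ω ω' h
  simp only [eq_iff_iff] at this
  by_cases h1 : ω ∈ H
  · rw [Set.indicator_of_mem h1, Set.indicator_of_mem (this.1 h1)]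
  · rw [Set.indicator_of_notMem h1, Set.indicator_of_notMem (fun h2 => h1 (this.2 h2))]

theorem ind_bd (H : Set Env) (ω : Env) : 0 ≤ H.indicator (fun _ => (1 : ℝ)) ω ∧
    H.indicator (fun _ => (1 : ℝ)) ω ≤ 1 := by
  by_cases h : ω ∈ H
  · rw [Set.indicator_of_mem h]; norm_num
  · rw [Set.indicator_of_notMem h]; norm_num

theorem dep_splice {β : Type*} {S : Set Site} (R : Set Site) (η : Env) {f : Env → β}
    (hf : DepOn S f) : DepOn S (fun ξ => f (splice R ξ η)) := by
  intro ω ω' h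
  apply hf
  intro x hx
  by_cases hR : x ∈ R
  · rw [splice_of_mem _ _ hR, splice_of_mem _ _ hR]; exact h x hx
  · rw [splice_of_not_mem _ _ hR, splice_of_not_mem _ _ hR]

theorem int3 {μ : Measure Env} {a b c : Env → ℝ} (ha : Integrable a μ) (hb : Integrable b μ)
    (hc : Integrable c μ) (p r : ℝ) :
    ∫ ω, (a ω - p * b ω - r * c ω) ∂μ = ∫ ω, a ω ∂μ - p * ∫ ω, b ω ∂μ - r * ∫ ω, c ω ∂μ := by
  have h1 : Integrable (fun ω => a ω - p * b ω) μ := ha.sub (hb.const_mul p)
  have h2 : Integrable (fun ω => r * c ω) μ := hc.const_mul r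
  have h3 : Integrable (fun ω => p * b ω) μ := hb.const_mul p
  rw [integral_sub h1 h2, integral_sub ha h3, integral_const_mul, integral_const_mul]

theorem pf_CVB (h_HAR : T_HAR) (h_FIM : T_FIM) : T_CVB := by
  classical
  intro q S R Psi H F dPsi mPsi bPsi dHS dHR mH dF hF1 hF2
  obtain ⟨iH, hiH⟩ : ∃ iH : Env → ℝ, iH = H.indicator (fun _ => (1 : ℝ)) := ⟨_, rfl⟩
  obtain ⟨iF, hiF⟩ : ∃ iF : Env → ℝ, iF = F.indicator (fun _ => (1 : ℝ)) := ⟨_, rfl⟩
  have dH : DepOn (S : Set Site) iH := by rw [hiH]; exact dep_ind dHS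
  have dHR' : DepOn R iH := by rw [hiH]; exact dep_ind dHR
  have dF' : DepOn (S : Set Site) iF := by rw [hiF]; exact dep_ind dF
  have bH : ∀ ω, 0 ≤ iH ω ∧ iH ω ≤ 1 := by rw [hiH]; exact ind_bd H
  have bF : ∀ ω, 0 ≤ iF ω ∧ iF ω ≤ 1 := by rw [hiF]; exact ind_bd F
  have meH : MeasurableSet H := h_FIM (S : Set Site) (fun ω => ω ∈ H) S.finite_toSet dHS
  have meF : MeasurableSet F := h_FIM (S : Set Site) (fun ω => ω ∈ F) S.finite_toSet dF
  have pH : ∫ ω, iH ω ∂(PE q) = (PE q).real H := by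
    rw [hiH]; exact integral_indicator_one meH
  have pF : ∫ ω, iF ω ∂(PE q) = (PE q).real F := by
    rw [hiF]; exact integral_indicator_one meF
  rw [← hiH]
  obtain ⟨p, hp⟩ : ∃ p : ℝ, p = (PE q).real H := ⟨_, rfl⟩
  have hp0 : 0 ≤ p := by rw [hp]; exact measureReal_nonneg
  have hp1 : p ≤ 1 := by rw [hp]; exact measureReal_le_one
  rw [← hp, ← pF]
  -- the combined function
  obtain ⟨G, hG⟩ : ∃ G : Env → ℝ, G = fun ω => iH ω * Psi ω - p * Psi ω - p / 2 * iF ω := ⟨_, rfl⟩
  have iHP : Integrable (fun ω => iH ω * Psi ω) (PE q) := by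
    refine int_dep h_FIM q (S := S) (C := 1) ?_ ?_
    · intro ω ω' h; simp only [dH ω ω' h, dPsi ω ω' h]
    · intro ω
      obtain ⟨a1, a2⟩ := bH ω
      obtain ⟨b1, b2⟩ := bPsi ω
      rw [abs_le]
      constructor <;> nlinarith
  have iP : Integrable Psi (PE q) := int_dep h_FIM q (C := 1) dPsi fun ω => by
    obtain ⟨b1, b2⟩ := bPsi ω
    rw [abs_le]; constructor <;> linarith
  have iiF : Integrable iF (PE q) := int_dep h_FIM q (C := 1) dF' fun ω => by
    obtain ⟨b1, b2⟩ := bF ω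
    rw [abs_le]; constructor <;> linarith
  have hGint : ∫ ω, G ω ∂(PE q) = ∫ ω, iH ω * Psi ω ∂(PE q) - p * ∫ ω, Psi ω ∂(PE q) -
      p / 2 * ∫ ω, iF ω ∂(PE q) := by
    rw [hG]
    exact int3 iHP iP iiF p (p / 2)
  have iG : Integrable G (PE q) := by
    rw [hG]; exact (iHP.sub (iP.const_mul p)).sub (iiF.const_mul (p / 2))
  suffices hnn : 0 ≤ ∫ ω, G ω ∂(PE q) by
    rw [hGint] at hnn
    linarith
  -- Fubini
  have hmp := mp_splice q R
  have hfub : ∫ ω, G ω ∂(PE q) = ∫ η, ∫ ξ, G (splice R ξ η) ∂(PE q) ∂(PE q) := by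
    rw [← hmp.map_eq]
    rw [integral_map (measurable_splice R).aemeasurable
      (by rw [hmp.map_eq]; exact iG.aestronglyMeasurable)]
    rw [hmp.map_eq]
    rw [integral_prod_symm (fun z : Env × Env => G (splice R z.1 z.2))]
    exact hmp.integrable_comp_of_integrable iG
  rw [hfub]
  apply integral_nonneg
  intro η
  simp only [Pi.zero_apply]
  -- fixed outside
  have hHs : ∀ ξ, iH (splice R ξ η) = iH ξ := by
    intro ξ
    apply dHR'
    intro x hx
    exact splice_of_mem _ _ hx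
  have dPs : DepOn (S : Set Site) (fun ξ => Psi (splice R ξ η)) := dep_splice R η dPsi
  have dFs : DepOn (S : Set Site) (fun ξ => iF (splice R ξ η)) := dep_splice R η dF'
  have iPs : Integrable (fun ξ => Psi (splice R ξ η)) (PE q) :=
    int_dep h_FIM q (C := 1) dPs fun ω => by
      obtain ⟨b1, b2⟩ := bPsi (splice R ω η)
      rw [abs_le]; constructor <;> linarith
  have iFs : Integrable (fun ξ => iF (splice R ξ η)) (PE q) :=
    int_dep h_FIM q (C := 1) dFs fun ω => by
      obtain ⟨b1, b2⟩ := bF (splice R ω η)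
      rw [abs_le]; constructor <;> linarith
  have iHs : Integrable iH (PE q) := int_dep h_FIM q (C := 1) dH fun ω => by
    obtain ⟨b1, b2⟩ := bH ω
    rw [abs_le]; constructor <;> linarith
  have iHPs : Integrable (fun ξ => iH ξ * Psi (splice R ξ η)) (PE q) := by
    refine int_dep h_FIM q (S := S) (C := 1) ?_ ?_
    · intro ω ω' h
      have h1 := dPs ω ω' h
      simp only at h1
      simp only [dH ω ω' h, h1]
    · intro ω
      obtain ⟨a1, a2⟩ := bH ω
      obtain ⟨b1, b2⟩ := bPsi (splice R ω η)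
      rw [abs_le]
      constructor <;> nlinarith
  have hinner : ∫ ξ, G (splice R ξ η) ∂(PE q) = ∫ ξ, iH ξ * Psi (splice R ξ η) ∂(PE q) -
      p * ∫ ξ, Psi (splice R ξ η) ∂(PE q) - p / 2 * ∫ ξ, iF (splice R ξ η) ∂(PE q) := by
    rw [hG]
    simp only [hHs]
    exact int3 iHPs iPs iFs p (p / 2)
  rw [hinner]
  by_cases hne : ∃ ξ0, splice R ξ0 η ∈ F
  · obtain ⟨ξ0, hξ0⟩ := hne
    have h1 : ∀ ξ, iH ξ * Psi (splice R ξ η) = iH ξ := by
      intro ξ
      by_cases hξ : ξ ∈ H
      · have h2 : splice R ξ η ∈ H := by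
          have := dHR (splice R ξ η) ξ (fun x hx => splice_of_mem _ _ hx)
          simp only [eq_iff_iff] at this
          exact this.2 hξ
        have h3 : Psi (splice R ξ η) = 1 := by
          apply hF2 _ hξ0 _ _ h2
          intro x hx
          rw [splice_of_not_mem _ _ hx, splice_of_not_mem _ _ hx]
        rw [h3, mul_one]
      · have : iH ξ = 0 := by rw [hiH, Set.indicator_of_notMem hξ]
        rw [this, zero_mul]
    simp only [h1]
    rw [pH, ← hp]
    have h4 : 0 ≤ ∫ ξ, (1 - 1 * Psi (splice R ξ η) - 1 / 2 * iF (splice R ξ η)) ∂(PE q) := by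
      apply integral_nonneg
      intro ξ
      simp only [Pi.zero_apply]
      by_cases hξ : splice R ξ η ∈ F
      · have h5 := hF1 _ hξ
        have h6 := (bF (splice R ξ η)).2
        linarith
      · have h5 := (bPsi (splice R ξ η)).2
        have h6 : iF (splice R ξ η) = 0 := by rw [hiF, Set.indicator_of_notMem hξ]
        rw [h6]
        linarith
    rw [int3 (integrable_const 1) iPs iFs 1 (1 / 2)] at h4
    simp only [integral_const, probReal_univ, smul_eq_mul, mul_one, one_mul] at h4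
    nlinarith
  · have h1 : ∀ ξ, iF (splice R ξ η) = 0 := by
      intro ξ
      rw [hiF, Set.indicator_of_notMem]
      exact fun h => hne ⟨ξ, h⟩
    simp only [h1, integral_zero, mul_zero, sub_zero]
    have har := h_HAR q S iH (fun ξ => Psi (splice R ξ η)) dH dPs ?_ ?_ ⟨1, fun ω => ?_⟩
      ⟨1, fun ω => ?_⟩
    · rw [pH, ← hp] at har
      linarith
    · intro ω ω' h
      by_cases h2 : ω ∈ H
      · rw [hiH, Set.indicator_of_mem h2, Set.indicator_of_mem (mH ω ω' h h2)]
      · have : iH ω = 0 := by rw [hiH, Set.indicator_of_notMem h2]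
        rw [this]
        exact (bH ω').1
    · intro ω ω' h
      apply mPsi
      intro x
      by_cases hR : x ∈ R
      · rw [splice_of_mem _ _ hR, splice_of_mem _ _ hR]; exact h x
      · rw [splice_of_not_mem _ _ hR, splice_of_not_mem _ _ hR]
    · obtain ⟨b1, b2⟩ := bH ω
      rw [abs_le]; constructor <;> linarith
    · obtain ⟨b1, b2⟩ := bPsi (splice R ω η)
      rw [abs_le]; constructor <;> linarith

end Pool.Agent.H38.NT
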