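import Pool.Agent.H84.NT.Targets

/-!
# Dependence and monotonicity of the highway event
-/

open MeasureTheory ProbabilityTheory
open scoped ENNReal

namespace Pool.Agent.H38.NT

open Pool.Agent.H99.NS Pool.Agent.H22.LPP Pool.Agent.H95.INS Pool.Agent.H84.NT

theorem wt_tube {R : ℤ} {k : ℕ} {ω ω' : Env} (h : ∀ x ∈ tube R k, ω x = ω' x) {g : ℤ → ℤ}
    (hg : Stay (R * 16 ^ k) (-lv k) (lv k) g) :
    wt ω (-lv k) (lv k) g = wt ω' (-lv k) (lv k) g := by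
  apply wt_congr
  intro r hr1 hr2
  exact h _ ⟨hr1, hr2, hg r hr1.le hr2⟩

theorem HH_of_agree {q K1 : ℝ} {Cd R : ℤ} {k : ℕ} {ω ω' : Env}
    (h : ∀ x ∈ tube R k, ω x = ω' x) (hH : HH q K1 Cd R k ω) : HH q K1 Cd R k ω' := by
  intro y y' h1 h2 h3 h4
  obtain ⟨g, g1, g2, g3⟩ := hH y y' h1 h2 h3 h4
  exact ⟨g, g1, g2, by rw [← wt_tube h g2]; exact g3⟩

theorem pf_HHD : T_HHD := by
  intro q K1 Cd R k
  refine ⟨?_, ?_, ?_⟩
  · intro ω ω' h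
    apply propext
    exact ⟨HH_of_agree h, HH_of_agree fun x hx => (h x hx).symm⟩
  · refine Set.Finite.subset (Finset.finite_toSet
      (Finset.Icc ((-lv k, -(R * 16 ^ k)) : Site) (lv k, R * 16 ^ k))) ?_
    rintro x ⟨h1, h2, h3⟩
    rw [abs_lt] at h3
    rw [Finset.coe_Icc, Set.mem_Icc, Prod.le_def, Prod.le_def]
    exact ⟨⟨h1.le, h3.1.le⟩, h2, h3.2.le⟩
  · intro ω ω' h hH y y' h1 h2 h3 h4
    obtain ⟨g, g1, g2, g3⟩ := hH y y' h1 h2 h3 h4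
    refine ⟨g, g1, g2, g3.trans ?_⟩
    unfold wt
    refine Finset.sum_le_sum fun r _ => ?_
    exact_mod_cast h (r, g r)

end Pool.Agent.H38.NT
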