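import Pool.Agent.H84.NT.Targets

/-!
# Two connectors and a highway give the highway event (deterministic)
-/

open MeasureTheory ProbabilityTheory
open scoped ENNReal

namespace Pool.Agent.H38.NT

open Pool.Agent.H99.NS Pool.Agent.H22.LPP Pool.Agent.H95.INS Pool.Agent.H84.NT

/-- Lower bound of the parabola for a connector of duration `16 h`. -/
theorem par_conn {q a x1 x2 h c w f : ℝ} (hq : q < 1) (hh : 0 < h) (hw : w ^ 2 = 64 * h * f)
    (hx : |x2 - x1| ≤ c * w) :
    mu q * a - 2 * sg q * c ^ 2 * f ≤ mu q * a - sg q / 2 * (x2 - x1) ^ 2 / (16 * h) := by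
  have hs := sg_nonneg hq
  have h1 : (x2 - x1) ^ 2 ≤ (c * w) ^ 2 := by
    rw [← sq_abs (x2 - x1)]
    have := abs_nonneg (x2 - x1)
    gcongr
  have h2 : sg q / 2 * (x2 - x1) ^ 2 / (16 * h) ≤ 2 * sg q * c ^ 2 * f := by
    rw [div_le_iff₀ (by positivity)]
    calc sg q / 2 * (x2 - x1) ^ 2 ≤ sg q / 2 * (c * w) ^ 2 := by gcongr
      _ = 2 * sg q * c ^ 2 * f * (16 * h) := by rw [mul_pow, hw]; ring
  linarith

theorem pf_HPD : T_HPD := by
  intro q K1 K2 K3 Cd R k ω q0 q1 hk hK1 hK2 hCd hR hCw hK3 hRs hA hB hC hD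
  obtain ⟨m, rfl⟩ : ∃ m, k = m + 1 := ⟨k - 1, by omega⟩
  have hs := sg_pos q0 q1
  have hmu := mu_pos q0 q1
  have lvk : lv (m + 1) = 32 * 64 ^ m := rfl
  simp only [Nat.add_sub_cancel] at hCw hA hB hC
  rw [lvk] at hA hC hD
  -- scales
  obtain ⟨h, hh⟩ : ∃ h : ℤ, h = 64 ^ m := ⟨_, rfl⟩
  obtain ⟨w, hw⟩ : ∃ w : ℤ, w = 16 ^ (m + 1) := ⟨_, rfl⟩
  obtain ⟨f, hf⟩ : ∃ f : ℝ, f = 4 ^ (m + 1) := ⟨_, rfl⟩
  have hpos : 0 < h := by rw [hh]; positivity
  have wpos : 0 < w := by rw [hw]; positivity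
  have fpos : 0 < f := by rw [hf]; positivity
  have hposR : (0 : ℝ) < h := by exact_mod_cast hpos
  have wposR : (0 : ℝ) < w := by exact_mod_cast wpos
  have hR1 : (1 : ℤ) ≤ h := by omega
  have hsc : (w : ℝ) ^ 2 = 64 * h * f := by
    rw [hw, hh, hf]
    push_cast
    rw [pow_succ (16 : ℝ), pow_succ (4 : ℝ), mul_pow, ← pow_mul, mul_comm m 2, pow_mul]
    rw [show (64 : ℝ) * 64 ^ m * (4 ^ m * 4) = 256 * (64 ^ m * 4 ^ m) by ring, ← mul_pow]
    norm_num
    ring
  have h64 : ((64 : ℝ) ^ (m + 1)) = 64 * h := by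
    rw [hh]; push_cast; ring
  intro y y' hye hy hy' hreach
  rw [lvk] at hreach ⊢
  rw [← hh] at hreach hCw hA hB hC hD ⊢
  rw [← hw] at hy hy' hCw hA hC hD ⊢
  have hB' : mu q * (32 * h) + K3 * f ≤ T ω (-(16 * h), 0) (16 * h, 0) := by
    have := hB
    rw [← hf] at this
    rw [hh] at this ⊢
    push_cast
    exact this
  rw [← hf] at hA hC hD ⊢
  rw [h64] at hD
  -- parities
  have hyp : Even (y' - y) := by
    have h1 := hreach.2
    simp only at h1
    rw [show (32 * h - -(32 * h) + (y' - y)) = (y' - y) + 2 * (32 * h) by ring] at h1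
    exact (Int.even_add.1 h1).2 (even_two_mul _)
  have hy'e : Even y' := by
    have := hyp.add hye
    rwa [sub_add_cancel] at this
  have hwC : w ≤ (Cd + 1) * w := by nlinarith only [hCd, wpos]
  have hr1 : Reach (-(32 * h), y) (-(16 * h), 0) := by
    refine ⟨?_, ?_⟩
    · simp only
      rw [zero_sub, abs_neg]
      omega
    · simp only
      obtain ⟨c, hc⟩ := hye
      exact ⟨8 * h - c, by omega⟩
  have hr2 : Reach (-(16 * h), 0) (16 * h, 0) := by
    refine ⟨?_, ?_⟩
    · simp only [sub_zero, abs_zero]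
      omega
    · simp only
      exact ⟨16 * h, by omega⟩
  have hr3 : Reach (16 * h, 0) (32 * h, y') := by
    refine ⟨?_, ?_⟩
    · simp only [sub_zero]
      omega
    · simp only
      obtain ⟨c, hc⟩ := hy'e
      exact ⟨8 * h + c, by omega⟩
  obtain ⟨g1, c1, t1, -⟩ := T_attained ω hr1
  obtain ⟨g2, c2, t2, -⟩ := T_attained ω hr2
  obtain ⟨g3, c3, t3, -⟩ := T_attained ω hr3
  have l1 : -(32 * h) ≤ -(16 * h) := by omega
  have l2 : -(16 * h) ≤ 16 * h := by omega
  have l3 : 16 * h ≤ 32 * h := by omega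
  have c12 := conn_concat (u := (-(32 * h), y)) (v := (-(16 * h), 0)) (w := (16 * h, 0)) l1 l2 c1 c2
  have c123 := conn_concat (u := (-(32 * h), y)) (v := (16 * h, 0)) (w := (32 * h, y'))
    (l1.trans l2) l3 c12 c3
  obtain ⟨g, hg⟩ : ∃ g : ℤ → ℤ, g = (fun r => if r ≤ ((16 * h, 0) : Site).1 then
      (if r ≤ ((-(16 * h), 0) : Site).1 then g1 r else g2 r) else g3 r) := ⟨_, rfl⟩
  rw [← hg] at c123
  have hwt : wt ω (-(32 * h)) (32 * h) g = T ω (-(32 * h), y) (-(16 * h), 0) +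
      T ω (-(16 * h), 0) (16 * h, 0) + T ω (16 * h, 0) (32 * h, y') := by
    rw [wt_add ω (l1.trans l2) l3 g, wt_add ω l1 l2 g, t1, t2, t3]
    congr 1
    · congr 1
      · apply wt_congr
        intro r _ hr
        rw [hg]
        simp only at hr ⊢
        rw [if_pos (by omega), if_pos hr]
      · apply wt_congr
        intro r hr hr'
        rw [hg]
        simp only at hr hr' ⊢
        rw [if_pos hr', if_neg (by omega)]
    · apply wt_congr
      intro r hr _
      rw [hg]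
      simp only at hr ⊢
      rw [if_neg (by omega)]
  have hyR : |(y : ℝ)| ≤ 1 * (w : ℝ) := by
    rw [one_mul]; exact_mod_cast hy
  have hy'R : |(y' : ℝ)| ≤ ((Cd : ℝ) + 1) * w := by exact_mod_cast hy'
  have e1 : mu q * (16 * h) - 2 * sg q * 1 ^ 2 * f ≤ par q (-(32 * h), y) (-(16 * h), 0) := by
    have hx := par_conn (q := q) (a := 16 * h) (x1 := (y : ℝ)) (x2 := 0) (h := h) (c := 1)
      (w := w) (f := f) q1 hposR hsc (by rw [zero_sub, abs_neg]; exact hyR)
    refine hx.trans (le_of_eq ?_)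
    unfold par
    push_cast
    ring_nf
  have e3 : mu q * (16 * h) - 2 * sg q * ((Cd : ℝ) + 1) ^ 2 * f ≤
      par q (16 * h, 0) (32 * h, y') := by
    have hx := par_conn (q := q) (a := 16 * h) (x1 := 0) (x2 := (y' : ℝ)) (h := h)
      (c := (Cd : ℝ) + 1) (w := w) (f := f) q1 hposR hsc (by rw [sub_zero]; exact hy'R)
    refine hx.trans (le_of_eq ?_)
    unfold par
    push_cast
    ring_nf
  have hA' := hA y hy hr1
  have hC' := hC y' hy' hr3
  have htot : mu q * (64 * h) + K1 * f ≤ wt ω (-(32 * h)) (32 * h) g := by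
    rw [hwt]
    have h5 : (K1 + 2 * K2 + 2 * sg q * (1 + ((Cd : ℝ) + 1) ^ 2)) * f ≤ K3 * f := by gcongr
    nlinarith only [hB', e1, e3, hA', hC', h5]
  have hgs : g (-(32 * h)) = y := c123.2.1
  have hge : g (32 * h) = y' := c123.2.2
  have hgp : IsPath (-(32 * h)) (32 * h) g := c123.1
  -- no touching of the boundary of the tube
  have key : ∀ r, -(32 * h) ≤ r → r ≤ 32 * h → |g r| = R * w → False := by
    intro r hr1 hr2 hgr
    have p1 := hD (-(32 * h)) r g le_rfl hr1 hr2 (fun x hx1 hx2 => hgp x hx1 (by omega))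
      (by rw [hgs]; nlinarith only [hR, wpos, hy])
    have p2 := hD r (32 * h) g hr1 hr2 le_rfl (fun x hx1 hx2 => hgp x (by omega) hx2)
      (by rw [hgr])
    have hsum := wt_add ω hr1 hr2 g
    have hr1R : (0 : ℝ) ≤ ((r - -(32 * h) : ℤ) : ℝ) := by
      exact_mod_cast (by omega : 0 ≤ r - -(32 * h))
    have hr2R : (0 : ℝ) ≤ ((32 * h - r : ℤ) : ℝ) := by
      exact_mod_cast (by omega : 0 ≤ 32 * h - r)
    have hr3R : ((r - -(32 * h) : ℤ) : ℝ) ≤ 64 * h := by
      exact_mod_cast (by omega : r - -(32 * h) ≤ 64 * h)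
    have s2 : sp q (64 * h / 50) r (32 * h) g ≤ mu q * ((32 * h - r : ℤ) : ℝ) := by
      unfold sp
      have : 0 ≤ sg q / 2 * ((g (32 * h) - g r : ℤ) : ℝ) ^ 2 /
          (((32 * h - r : ℤ) : ℝ) + 64 * h / 50) := by positivity
      linarith
    have s1 : sp q (64 * h / 50) (-(32 * h)) r g ≤ mu q * ((r - -(32 * h) : ℤ) : ℝ) -
        sg q / 3 * ((R : ℝ) - 1) ^ 2 * f := by
      unfold sp
      have hdis : (((R : ℝ) - 1) * w) ^ 2 ≤ ((g r - g (-(32 * h)) : ℤ) : ℝ) ^ 2 := by
        have h6 : (R - 1) * w ≤ |g r - g (-(32 * h))| := by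
          rw [hgs]
          have h7 := abs_sub_abs_le_abs_sub (g r) y
          rw [hgr] at h7
          nlinarith only [hy, h7]
        have h8 : (((R - 1) * w : ℤ) : ℝ) ≤ ((|g r - g (-(32 * h))| : ℤ) : ℝ) := by
          exact_mod_cast h6
        have h9 : (0 : ℝ) ≤ (((R - 1) * w : ℤ) : ℝ) := by
          have : 0 ≤ (R - 1) * w := by nlinarith only [hR, wpos]
          exact_mod_cast this
        rw [Int.cast_abs] at h8
        have h10 := pow_le_pow_left₀ h9 h8 2
        rw [sq_abs] at h10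
        push_cast at h10 ⊢
        exact h10
      have hden : (0 : ℝ) < ((r - -(32 * h) : ℤ) : ℝ) + 64 * h / 50 := by positivity
      have : sg q / 3 * ((R : ℝ) - 1) ^ 2 * f ≤ sg q / 2 *
          ((g r - g (-(32 * h)) : ℤ) : ℝ) ^ 2 /
          (((r - -(32 * h) : ℤ) : ℝ) + 64 * h / 50) := by
        rw [le_div_iff₀ hden]
        calc sg q / 3 * ((R : ℝ) - 1) ^ 2 * f * (((r - -(32 * h) : ℤ) : ℝ) + 64 * h / 50)
            ≤ sg q / 3 * ((R : ℝ) - 1) ^ 2 * f * (64 * h + 64 * h / 50) := by gcongr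
          _ = (sg q * (51 / 150)) * (((R : ℝ) - 1) ^ 2 * (64 * h * f)) := by ring
          _ = (sg q * (51 / 150)) * (((R : ℝ) - 1) * w) ^ 2 := by rw [mul_pow, hsc]
          _ ≤ (sg q / 2) * (((R : ℝ) - 1) * w) ^ 2 := by
            have : 0 ≤ (((R : ℝ) - 1) * w) ^ 2 := sq_nonneg _
            nlinarith only [hs]
          _ ≤ sg q / 2 * ((g r - g (-(32 * h)) : ℤ) : ℝ) ^ 2 := by gcongr
      linarith
    have h11 : 2 * (R : ℝ) * f < sg q / 3 * ((R : ℝ) - 1) ^ 2 * f := by gcongr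
    have h12 : mu q * ((r - -(32 * h) : ℤ) : ℝ) + mu q * ((32 * h - r : ℤ) : ℝ) =
        mu q * (64 * h) := by
      push_cast; ring
    have h13 : 0 ≤ K1 * f := by positivity
    linarith
  have hstay : ∀ r, -(32 * h) ≤ r → r ≤ 32 * h → |g r| < R * w := by
    intro r hr1
    induction r, hr1 using Int.leInduction with
    | base =>
      intro _
      rw [hgs]
      nlinarith only [hR, wpos, hy]
    | succ r hr ih =>
      intro hr2
      have h1 := ih (by omega)
      have h2 := hgp r hr (by omega)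
      have h3 := key (r + 1) (by omega) hr2
      rcases lt_or_ge (|g (r + 1)|) (R * w) with h4 | h4
      · exact h4
      · exfalso
        apply h3
        apply le_antisymm _ h4
        generalize R * w = X at *
        rw [abs_lt] at h1
        rw [abs_le]
        rcases h2 with h2 | h2 <;> constructor <;> omega
  refine ⟨g, c123, hstay, ?_⟩
  refine le_trans ?_ htot
  have h14 : par q (-(32 * h), y) (32 * h, y') ≤ mu q * (64 * h) := by
    unfold par
    have h15 : ((32 * h - -(32 * h) : ℤ) : ℝ) = 64 * h := by push_cast; ring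
    simp only
    rw [h15]
    have : 0 ≤ sg q / 2 * ((y' - y : ℤ) : ℝ) ^ 2 / (64 * h) := by positivity
    linarith
  linarith

end Pool.Agent.H38.NT
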